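import Pool.Agent.ER.E4
import Pool.Agent.H34.WM.StmA

set_option autoImplicit false

/-!
# Piece W3: the derivatives of a regular pair
-/

namespace H49.WM

open MeasureTheory Set Metric Filter Topology H82.Bil H87.BP H87.VA H82.ER H9.WM H78.ER

open scoped ENNReal NNReal

lemma dir_leW {G : ℂ × Dir → ℝ} {x : ℂ} {θ : Dir}
    (hd : DifferentiableAt ℝ (fun y => G (y, θ)) x) {w : ℂ} {c k : ℝ}
    (hc : ∀ᶠ t : ℝ in 𝓝[>] (0 : ℝ), |G (x + (t : ℂ) * w, θ) - G (x, θ) + k * t| ≤ c * t) :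
    |fderiv ℝ (fun y => G (y, θ)) x w + k| ≤ c := by
  refine le_of_tendsto ((tendsto_q hd w).add_const k).abs ?_
  filter_upwards [tendsto_inv.eventually hc, eventually_gt_atTop 0] with j hj hj0
  have hj1 : (0 : ℝ) < j := by exact_mod_cast hj0
  push_cast at hj
  unfold q
  have e1 : (j : ℝ) * (G (x + (j : ℂ)⁻¹ * w, θ) - G (x, θ)) + k =
      (j : ℝ) * (G (x + (j : ℂ)⁻¹ * w, θ) - G (x, θ) + k * (j : ℝ)⁻¹) := by
    field_simp
  show |(j : ℝ) * (G (x + (j : ℂ)⁻¹ * w, θ) - G (x, θ)) + k| ≤ c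
  rw [e1, abs_mul, abs_of_pos hj1]
  calc (j : ℝ) * |G (x + (j : ℂ)⁻¹ * w, θ) - G (x, θ) + k * (j : ℝ)⁻¹|
      ≤ (j : ℝ) * (c * (j : ℝ)⁻¹) := mul_le_mul_of_nonneg_left hj hj1.le
    _ = c := by field_simp

/-- the properties of a good point -/
def Gw (G k s g : ℂ × Dir → ℝ) (L : ℝ) (x : ℂ) (θ : Dir) : Prop :=
  Gd G (fun _ => L) g L x θ ∧
  |(e θ).re * A G L 1 (x, θ) + (e θ).im * A G L Complex.I (x, θ) + k (x, θ)| ≤ s (x, θ)

lemma measurable_Gw {G k s g : ℂ × Dir → ℝ} {L : ℝ} (hG : Measurable G) (hk : Measurable k)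
    (hs : Measurable s) (hg : Measurable g) :
    MeasurableSet {z : ℂ × Dir | Gw G k s g L z.1 z.2} := by
  have hA1 := measurable_A hG L 1
  have hA2 := measurable_A hG L Complex.I
  have he : Measurable fun z : ℂ × Dir => e z.2 := continuous_e.measurable.comp measurable_snd
  have he1 : Measurable fun z : ℂ × Dir => (e z.2).re := Complex.measurable_re.comp he
  have he2 : Measurable fun z : ℂ × Dir => (e z.2).im := Complex.measurable_im.comp he
  have h3 : MeasurableSet {z : ℂ × Dir |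
      |(e z.2).re * A G L 1 z + (e z.2).im * A G L Complex.I z + k z| ≤ s z} :=
    measurableSet_le (((he1.mul hA1).add (he2.mul hA2)).add hk).abs hs
  exact (measurable_Gd (L := L) hG measurable_const hg).inter h3

theorem one {T : Table} {G g : ℂ × Dir → ℝ} {M L ρ : ℝ} (h : Rg T G (fun _ => L) g M L ρ)
    {k s : ℂ × Dir → ℝ} (hk : Measurable k) (hs : Measurable s)
    (hb : ∀ x ∈ T.U, ∀ (θ : Dir) (c : ℝ), s (x, θ) < c →
      ∀ᶠ t : ℝ in 𝓝[>] (0 : ℝ),
        |G (x + (t : ℂ) * e θ, θ) - G (x, θ) + k (x, θ) * t| ≤ c * t) :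
    (∀ᵐ x ∂(volume.restrict T.U), ∀ n : ℕ,
      dx (am n G) x = am n (A G L 1) x ∧ dy (am n G) x = am n (A G L Complex.I) x) ∧
    ∀ᵐ a ∂(volume.restrict (T.U ×ˢ (univ : Set Dir))),
      |(e a.2).re * A G L 1 a + (e a.2).im * A G L Complex.I a + k a| ≤ s a ∧
      A G L 1 a ^ 2 + A G L Complex.I a ^ 2 ≤ g a ^ 2 := by
  have hm := measurable_Gw (L := L) h.Gm hk hs h.gm
  have hfib : ∀ᵐ θ : Dir, ∀ᵐ x ∂(volume.restrict T.U), Gw G k s g L x θ := by
    refine Eventually.of_forall fun θ => ?_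
    have hd : ∀ᵐ x ∂(volume.restrict T.U), DifferentiableAt ℝ (fun y => G (y, θ)) x :=
      ae_diff (f := fun y => G (y, θ)) T.isOpen h.Lpos (fun x y hxy => h.lip θ x y hxy)
    filter_upwards [hd, ae_restrict_mem T.isOpen.measurableSet] with x hx hxU
    refine ⟨good h hxU hx, ?_⟩
    have b1 : |fderiv ℝ (fun y => G (y, θ)) x 1| ≤ L := by
      have := fderiv_le h hxU hx 1
      rwa [norm_one, mul_one] at this
    have b2 : |fderiv ℝ (fun y => G (y, θ)) x Complex.I| ≤ L := by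
      have := fderiv_le h hxU hx Complex.I
      rwa [Complex.norm_I, mul_one] at this
    have e1 : A G L 1 (x, θ) = fderiv ℝ (fun y => G (y, θ)) x 1 := A_eq (tendsto_q hx 1) b1
    have e2 : A G L Complex.I (x, θ) = fderiv ℝ (fun y => G (y, θ)) x Complex.I :=
      A_eq (tendsto_q hx Complex.I) b2
    rw [e1, e2, ← fderiv_dir]
    refine le_of_forall_gt_imp_ge_of_dense fun c hc => ?_
    exact dir_leW hx (hb x hxU θ c hc)
  have h1 : ∀ᵐ x ∂(volume.restrict T.U), ∀ᵐ θ : Dir, Gw G k s g L x θ :=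
    (Measure.ae_ae_comm hm).2 hfib
  have h2 : ∀ᵐ a ∂(volume.restrict (T.U ×ˢ (univ : Set Dir))), Gw G k s g L a.1 a.2 := by
    have h3 : ∀ᵐ a ∂((volume.restrict T.U).prod (volume : Measure Dir)),
        Gw G k s g L a.1 a.2 := (Measure.ae_prod_iff_ae_ae hm).2 h1
    have h4 : (volume.restrict T.U).prod (volume : Measure Dir) =
        (volume : Measure (ℂ × Dir)).restrict (T.U ×ˢ (univ : Set Dir)) := by
      rw [Measure.volume_eq_prod, ← Measure.prod_restrict, Measure.restrict_univ]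
    rwa [h4] at h3
  refine ⟨?_, ?_⟩
  · have h5 : ∀ᵐ x ∂(volume.restrict T.U), ∀ n : ℕ, DifferentiableAt ℝ (am n G) x := by
      rw [ae_all_iff]
      intro n
      exact ae_diff T.isOpen (mul_nonneg h.Lpos measureReal_nonneg)
        (fun x y hxy => am_lip h n hxy)
    filter_upwards [h1, h5, ae_restrict_mem T.isOpen.measurableSet] with x hx hx5 hxU n
    refine ⟨?_, ?_⟩
    · exact line_am h n hxU (hx5 n) (hx.mono fun θ hθ => hθ.1.1.1)
    · exact line_am h n hxU (hx5 n) (hx.mono fun θ hθ => hθ.1.1.2)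
  · filter_upwards [h2] with a ha
    exact ⟨ha.2, ha.1.2.2⟩

theorem pieceDiffW : H34.WM.PieceDiffW := by
  intro T ω G H s g M L ρ h
  have hG := one h.rG (k := fun a => ω * H a) (s := s) (h.rH.Gm.const_mul ω) h.sm
    (fun x hx θ c hc => (h.sbG x hx θ c hc).mono fun t ht => by
      have e1 : ω * H (x, θ) * t = ω * t * H (x, θ) := by ring
      simp only [e1]
      exact ht)
  have hH := one h.rH (k := fun a => -(ω * G a)) (s := s) (h.rG.Gm.const_mul ω).neg h.sm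
    (fun x hx θ c hc => (h.sbH x hx θ c hc).mono fun t ht => by
      have e1 : H (x + (t : ℂ) * e θ, θ) - H (x, θ) + -(ω * G (x, θ)) * t =
        H (x + (t : ℂ) * e θ, θ) - H (x, θ) - ω * t * G (x, θ) := by ring
      simp only [e1]
      exact ht)
  refine ⟨A G L 1, A G L Complex.I, A H L 1, A H L Complex.I, measurable_A h.rG.Gm L 1,
    measurable_A h.rG.Gm L Complex.I, measurable_A h.rH.Gm L 1,
    measurable_A h.rH.Gm L Complex.I, abs_A h.rG.Lpos 1, abs_A h.rG.Lpos Complex.I,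
    abs_A h.rH.Lpos 1, abs_A h.rH.Lpos Complex.I, ?_, ?_⟩
  · filter_upwards [hG.1, hH.1] with x h1 h2 n
    exact ⟨(h1 n).1, (h1 n).2, (h2 n).1, (h2 n).2⟩
  · filter_upwards [hG.2, hH.2] with a h1 h2
    refine ⟨h1.1, ?_, h1.2, h2.2⟩
    rw [sub_eq_add_neg]
    exact h2.1

end H49.WM
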